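import Pool.Agent.Y690.PP.Stm

/-!
# Quadratic reciprocity for Gaussian integers
-/

set_option autoImplicit false

open Pool.Agent.Y690.PP

namespace Pool.Agent.Y901.PP.Rec

open scoped NumberTheorySymbols

lemma prm_cong {c d : ℤ} (h : Prm ⟨c, d⟩) : c % 2 = 1 ∧ d % 2 = 0 ∧ (c - 1 - d) % 4 = 0 := by
  obtain ⟨⟨x, y⟩, hxy⟩ := h
  have h1 := congrArg Zsqrtd.re hxy
  have h2 := congrArg Zsqrtd.im hxy
  simp at h1 h2
  omega

lemma qs_congr {p z w : G} (h : p ∣ z - w) : qs p z = qs p w := by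
  have h1 : p ∣ z ↔ p ∣ w := dvd_iff_dvd_of_dvd_sub h
  have h2 : (∃ b : G, p ∣ b * b - z) ↔ ∃ b : G, p ∣ b * b - w := by
    constructor
    · rintro ⟨b, hb⟩
      refine ⟨b, ?_⟩
      have := dvd_add hb h
      rwa [sub_add_sub_cancel] at this
    · rintro ⟨b, hb⟩
      refine ⟨b, ?_⟩
      have := dvd_sub hb h
      rwa [show b * b - w - (z - w) = b * b - z by ring] at this
  unfold qs
  by_cases h3 : p ∣ z
  · rw [if_pos h3, if_pos (h1.mp h3)]
  · rw [if_neg h3, if_neg (fun h => h3 (h1.mpr h))]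
    by_cases h4 : ∃ b : G, p ∣ b * b - z
    · rw [if_pos h4, if_pos (h2.mp h4)]
    · rw [if_neg h4, if_neg (fun h => h4 (h2.mpr h))]

lemma nm_eq (c d : ℤ) : ((nm ⟨c, d⟩ : ℕ) : ℤ) = c * c + d * d := by
  unfold nm
  rw [Int.natCast_natAbs, abs_of_nonneg (GaussianInt.norm_nonneg _), Zsqrtd.norm_def]
  ring

lemma nm_norm (p : G) : ((nm p : ℕ) : ℤ) = p.norm := by
  unfold nm
  rw [Int.natCast_natAbs, abs_of_nonneg (GaussianInt.norm_nonneg _)]

lemma dvd_int_iff {p : G} (hP : (nm p).Prime) (n : ℤ) : p ∣ (n : G) ↔ ((nm p : ℕ) : ℤ) ∣ n := by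
  constructor
  · rintro ⟨w, hw⟩
    have h1 : ((nm p : ℕ) : ℤ) ∣ n * n := by
      have h2 := congrArg Zsqrtd.norm hw
      rw [Zsqrtd.norm_intCast, Zsqrtd.norm_mul] at h2
      exact ⟨w.norm, by rw [h2, nm_norm]⟩
    exact ((Nat.prime_iff_prime_int.mp hP).dvd_or_dvd h1).elim id id
  · rintro ⟨w, rfl⟩
    refine ⟨star p * w, ?_⟩
    rw [nm_norm, Int.cast_mul, Zsqrtd.norm_eq_mul_conj, mul_assoc]

/-- every Gaussian integer is congruent to an integer modulo a prime of prime norm -/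
lemma exists_int {c d : ℤ} (hP : (nm ⟨c, d⟩).Prime) (hd : ¬ ((nm ⟨c, d⟩ : ℕ) : ℤ) ∣ d) (a b : ℤ) :
    ∃ m : ℤ, (⟨c, d⟩ : G) ∣ (⟨a, b⟩ : G) - (m : G) ∧
      ((nm ⟨c, d⟩ : ℕ) : ℤ) ∣ c * m - (a * c + b * d) := by
  have hcop : IsCoprime d ((nm ⟨c, d⟩ : ℕ) : ℤ) :=
    ((Nat.prime_iff_prime_int.mp hP).coprime_iff_not_dvd.mpr hd).symm
  obtain ⟨d', e, hde⟩ := hcop
  refine ⟨a - b * c * d', ?_, ?_⟩
  · -- i + c d' = d' (c + d i) + (1 - d d') i
    have h1 : (⟨c, d⟩ : G) ∣ (((nm ⟨c, d⟩ : ℕ) : ℤ) : G) := (dvd_int_iff hP _).mpr dvd_rfl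
    have h2 : (⟨a, b⟩ : G) - ((a - b * c * d' : ℤ) : G) =
        (⟨c, d⟩ : G) * ((b * d' : ℤ) : G) + (((nm ⟨c, d⟩ : ℕ) : ℤ) : G) * (⟨0, b * e⟩ : G) := by
      ext
      · simp
        ring
      · simp
        linear_combination (-b) * hde
    rw [h2]
    exact dvd_add (dvd_mul_right _ _) (h1.mul_right _)
  · have h3 := nm_eq c d
    refine ⟨-(b * d') - b * d * e, ?_⟩
    rw [h3] at hde ⊢
    linear_combination (b * d) * hde

lemma qs_int {c d : ℤ} (hP : (nm ⟨c, d⟩).Prime) (hd : ¬ ((nm ⟨c, d⟩ : ℕ) : ℤ) ∣ d) (n : ℤ) :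
    qs ⟨c, d⟩ (n : G) = J(n | nm ⟨c, d⟩) := by
  have : Fact (nm ⟨c, d⟩).Prime := ⟨hP⟩
  rw [← jacobiSym.legendreSym.to_jacobiSym]
  have key : (∃ b : G, (⟨c, d⟩ : G) ∣ b * b - (n : G)) ↔ IsSquare ((n : ℤ) : ZMod (nm ⟨c, d⟩)) := by
    constructor
    · rintro ⟨⟨a, b⟩, hb⟩
      obtain ⟨m, hm, -⟩ := exists_int hP hd a b
      have h1 : (⟨c, d⟩ : G) ∣ (((m * m - n : ℤ)) : G) := by
        have h2 : (((m * m - n : ℤ)) : G) = ((⟨a, b⟩ : G) * ⟨a, b⟩ - (n : G)) -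
            ((⟨a, b⟩ : G) - (m : G)) * ((⟨a, b⟩ : G) + (m : G)) := by
          push_cast; ring
        rw [h2]
        exact dvd_sub hb (hm.mul_right _)
      rw [dvd_int_iff hP] at h1
      refine ⟨(m : ZMod (nm ⟨c, d⟩)), ?_⟩
      have h3 := (ZMod.intCast_zmod_eq_zero_iff_dvd _ _).mpr h1
      push_cast at h3
      linear_combination -h3
    · rintro ⟨y, hy⟩
      obtain ⟨m, rfl⟩ := ZMod.intCast_surjective y
      refine ⟨(m : G), ?_⟩
      have h1 : (((nm ⟨c, d⟩ : ℕ) : ℤ)) ∣ m * m - n := by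
        rw [← ZMod.intCast_zmod_eq_zero_iff_dvd]
        push_cast
        rw [hy, sub_self]
      have h2 := (dvd_int_iff hP _).mpr h1
      push_cast at h2
      exact h2
  unfold qs
  split_ifs with h1 h2
  · rw [dvd_int_iff hP] at h1
    exact ((legendreSym.eq_zero_iff _ _).mpr ((ZMod.intCast_zmod_eq_zero_iff_dvd _ _).mpr h1)).symm
  · rw [dvd_int_iff hP] at h1
    exact ((legendreSym.eq_one_iff _ (fun h => h1 ((ZMod.intCast_zmod_eq_zero_iff_dvd _ _).mp h))).mpr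
      (key.mp h2)).symm
  · exact ((legendreSym.eq_neg_one_iff _).mpr (fun h => h2 (key.mpr h))).symm

/-- an odd norm which is a prime is congruent to one modulo four -/
lemma nm_mod {c d : ℤ} (hc : c % 2 = 1) (hd : d % 2 = 0) : nm ⟨c, d⟩ % 4 = 1 := by
  have h := nm_eq c d
  obtain ⟨c', rfl⟩ : ∃ c', c = 2 * c' + 1 := ⟨c / 2, by omega⟩
  obtain ⟨d', rfl⟩ : ∃ d', d = 2 * d' := ⟨d / 2, by omega⟩
  have h2 : (2 * c' + 1) * (2 * c' + 1) + 2 * d' * (2 * d') = 4 * (c' * c' + c' + d' * d') + 1 := by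
    ring
  rw [h2] at h
  omega

lemma not_dvd_im {c d : ℤ} (hP : (nm ⟨c, d⟩).Prime) : ¬ ((nm ⟨c, d⟩ : ℕ) : ℤ) ∣ d := by
  intro h
  have h3 := nm_eq c d
  have hP' := Nat.prime_iff_prime_int.mp hP
  generalize ((nm ⟨c, d⟩ : ℕ) : ℤ) = P at *
  have h1 : P ∣ c * c := by
    have h4 : c * c = P - d * d := by rw [h3]; ring
    rw [h4]
    exact dvd_sub dvd_rfl (h.mul_right _)
  have h2 : P ∣ c := (hP'.dvd_or_dvd h1).elim id id
  obtain ⟨u, hu⟩ := h
  obtain ⟨v, hv⟩ := h2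
  have h5 : P * (P * (u * u + v * v)) = P * 1 := by
    rw [mul_one]
    nth_rewrite 3 [h3]
    rw [hu, hv]; ring
  have h6 := mul_left_cancel₀ hP'.ne_zero h5
  exact hP'.not_isUnit (IsUnit.of_mul_eq_one _ h6)

lemma jac_flip {M : ℕ} {x : ℤ} (hM : M % 4 = 1) (hx : x % 2 = 1) : J(x | M) = J(M | x.natAbs) := by
  have hodd : Odd x.natAbs := by rw [Nat.odd_iff]; omega
  have hMo : Odd M := by rw [Nat.odd_iff]; omega
  rw [jacobiSym.quadratic_reciprocity_one_mod_four hM hodd]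
  rcases Int.natAbs_eq x with h | h
  · rw [← h]
  · conv_lhs => rw [h]
    rw [jacobiSym.neg _ hMo, ZMod.χ₄_nat_one_mod_four hM, one_mul]

lemma jac_one {M : ℕ} {x y : ℤ} (hM : M % 4 = 1) (hx : x % 2 = 1) (h : x ∣ (M : ℤ) - y ^ 2)
    (hc : IsCoprime y x) : J(x | M) = 1 := by
  rw [jac_flip hM hx]
  have h1 : J(M | x.natAbs) = J(y ^ 2 | x.natAbs) := by
    apply jacobiSym.mod_left'
    refine Int.modEq_iff_dvd.mpr ?_
    rw [Int.natAbs_dvd]
    have h2 := (dvd_neg (a := x)).mpr h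
    rwa [neg_sub] at h2
  rw [h1]
  apply jacobiSym.sq_one'
  have h3 := Int.isCoprime_iff_gcd_eq_one.mp hc
  rw [Int.gcd_eq_natAbs] at h3 ⊢
  rw [Int.natAbs_natCast]
  exact h3

lemma cop_self {c d : ℤ} (hP : (nm ⟨c, d⟩).Prime) : IsCoprime d c := by
  have hP' := Nat.prime_iff_prime_int.mp hP
  have h3 := nm_eq c d
  rw [h3] at hP'
  refine isCoprime_of_prime_dvd ?_ ?_
  · rintro ⟨rfl, rfl⟩
    simp at hP'
  · rintro z hz ⟨u, hu⟩ ⟨v, hv⟩
    have h4 : z * z * (u * u + v * v) = c * c + d * d := by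
      rw [hu, hv]; ring
    rw [← h4, mul_assoc] at hP'
    rcases hP'.irreducible.isUnit_or_isUnit rfl with h5 | h5
    · exact hz.not_isUnit h5
    · exact hz.not_isUnit (isUnit_of_mul_isUnit_left h5)

/-- the value of the symbol for a prime of prime norm -/
lemma qs_split {c d : ℤ} (hP : (nm ⟨c, d⟩).Prime) (hc : c % 2 = 1) (hd : d % 2 = 0) (a b : ℤ) :
    qs ⟨c, d⟩ ⟨a, b⟩ = J(a * c + b * d | nm ⟨c, d⟩) := by
  have hP4 := nm_mod hc hd
  obtain ⟨m, hm1, hm2⟩ := exists_int hP (not_dvd_im hP) a b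
  rw [qs_congr hm1, qs_int hP (not_dvd_im hP)]
  have h1 : J(c | nm ⟨c, d⟩) = 1 := by
    apply jac_one (y := d) hP4 hc
    · rw [nm_eq]; exact ⟨c, by ring⟩
    · exact cop_self hP
  have h2 : J(c * m | nm ⟨c, d⟩) = J(a * c + b * d | nm ⟨c, d⟩) := by
    apply jacobiSym.mod_left'
    refine Int.modEq_iff_dvd.mpr ?_
    have h2 := (dvd_neg (a := ((nm ⟨c, d⟩ : ℕ) : ℤ))).mpr hm2
    rwa [neg_sub] at h2
  rw [← h2, jacobiSym.mul_left, h1, one_mul]

section inert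

variable {l : ℕ} (hl : l.Prime) (h3 : l % 4 = 3)

include hl h3

lemma sq_or (x y z : ZMod l) (hz : z ≠ 0) (h : x * y = -(z ^ 2)) : IsSquare x ∨ IsSquare y := by
  have : Fact l.Prime := ⟨hl⟩
  by_contra hcon
  push Not at hcon
  obtain ⟨hx, hy⟩ := hcon
  have h1 := quadraticChar_neg_one_iff_not_isSquare.mpr hx
  have h2 := quadraticChar_neg_one_iff_not_isSquare.mpr hy
  have h4 : quadraticChar (ZMod l) (x * y) = 1 := by rw [map_mul, h1, h2]; norm_num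
  have h5 : ¬ IsSquare (-1 : ZMod l) := by
    rw [ZMod.exists_sq_eq_neg_one_iff]; simpa using h3
  have h6 := quadraticChar_neg_one_iff_not_isSquare.mpr h5
  have h7 : quadraticChar (ZMod l) (-(z ^ 2)) = -1 := by
    rw [neg_eq_neg_one_mul, map_mul, h6, quadraticChar_sq_one' hz]; norm_num
  rw [h, h7] at h4
  norm_num at h4

lemma exists_root (A B m : ZMod l) (h : m * m = A * A + B * B) (hAB : A ≠ 0 ∨ B ≠ 0) :
    ∃ U V : ZMod l, U * U - V * V = A ∧ 2 * U * V = B := by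
  have : Fact l.Prime := ⟨hl⟩
  have h20 : (2 : ZMod l) ≠ 0 := by
    have h21 : ¬ (l ∣ 2) := fun h => by
      have := (Nat.prime_dvd_prime_iff_eq hl Nat.prime_two).mp h
      omega
    intro h22
    apply h21
    rw [← ZMod.natCast_eq_zero_iff]
    exact_mod_cast h22
  by_cases hB : B = 0
  · subst hB
    have hA : A ≠ 0 := by simpa using hAB
    rcases sq_or hl h3 A (-A) A hA (by ring) with ⟨U, hU⟩ | ⟨V, hV⟩
    · exact ⟨U, 0, by rw [hU]; ring, by ring⟩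
    · exact ⟨0, V, by linear_combination hV, by ring⟩
  · have main : ∀ m : ZMod l, m * m = A * A + B * B → IsSquare ((A + m) / 2) →
        ∃ U V : ZMod l, U * U - V * V = A ∧ 2 * U * V = B := by
      rintro m hm ⟨U, hU⟩
      have hAm : A + m = 2 * (U * U) := by
        rw [← hU]; field_simp
      have hU0 : U ≠ 0 := by
        rintro rfl
        have h5 : m = -A := by linear_combination hAm
        rw [h5] at hm
        have h6 : B * B = 0 := by linear_combination -hm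
        exact hB (mul_self_eq_zero.mp h6)
      refine ⟨U, B / (2 * U), ?_, ?_⟩
      · have h7 : m = 2 * (U * U) - A := by linear_combination hAm
        rw [h7] at hm
        field_simp
        linear_combination hm
      · field_simp
    rcases sq_or hl h3 ((A + m) / 2) ((A + -m) / 2) (B / 2) (div_ne_zero hB h20) (by
        field_simp
        linear_combination -h) with h5 | h5
    · exact main m h h5
    · exact main (-m) (by rw [← h]; ring) h5

lemma qs_inert (a b : ℤ) : qs ((-(l : ℤ) : ℤ) : G) ⟨a, b⟩ = J(a * a + b * b | l) := by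
  have : Fact l.Prime := ⟨hl⟩
  rw [← jacobiSym.legendreSym.to_jacobiSym]
  have hdvd : ∀ x y : ℤ, ((-(l : ℤ) : ℤ) : G) ∣ (⟨x, y⟩ : G) ↔ (x : ZMod l) = 0 ∧ (y : ZMod l) = 0 := by
    intro x y
    rw [Zsqrtd.intCast_dvd, neg_dvd, neg_dvd, ZMod.intCast_zmod_eq_zero_iff_dvd,
      ZMod.intCast_zmod_eq_zero_iff_dvd]
  have h0 : ((-(l : ℤ) : ℤ) : G) ∣ (⟨a, b⟩ : G) ↔ ((a * a + b * b : ℤ) : ZMod l) = 0 := by
    rw [hdvd]
    constructor
    · rintro ⟨h1, h2⟩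
      push_cast
      rw [h1, h2]; ring
    · intro h
      push_cast at h
      by_contra hcon
      have h5 : ¬ IsSquare (-1 : ZMod l) := by
        rw [ZMod.exists_sq_eq_neg_one_iff]; simpa using h3
      by_cases hb : (b : ZMod l) = 0
      · rw [hb] at h
        have h6 : (a : ZMod l) * a = 0 := by linear_combination h
        exact hcon ⟨mul_self_eq_zero.mp h6, hb⟩
      · apply h5
        refine ⟨(a : ZMod l) / b, ?_⟩
        field_simp
        linear_combination -h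
  have key : ¬ ((-(l : ℤ) : ℤ) : G) ∣ (⟨a, b⟩ : G) →
      ((∃ w : G, ((-(l : ℤ) : ℤ) : G) ∣ w * w - (⟨a, b⟩ : G)) ↔
        IsSquare ((a * a + b * b : ℤ) : ZMod l)) := by
    intro hn
    constructor
    · rintro ⟨⟨u, v⟩, hw⟩
      have h1 : (⟨u, v⟩ : G) * ⟨u, v⟩ - ⟨a, b⟩ = ⟨u * u - v * v - a, 2 * u * v - b⟩ := by
        ext <;> simp <;> ring
      rw [h1, hdvd] at hw
      obtain ⟨h2, h4⟩ := hw
      push_cast at h2 h4
      refine ⟨(u : ZMod l) * u + v * v, ?_⟩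
      push_cast
      have ha : (a : ZMod l) = u * u - v * v := by linear_combination -h2
      have hb : (b : ZMod l) = 2 * u * v := by linear_combination -h4
      rw [ha, hb]; ring
    · rintro ⟨m, hm⟩
      push_cast at hm
      have hAB : (a : ZMod l) ≠ 0 ∨ (b : ZMod l) ≠ 0 := by
        by_contra hcon
        push Not at hcon
        exact hn ((hdvd a b).mpr hcon)
      obtain ⟨U, V, hU, hV⟩ := exists_root hl h3 (a : ZMod l) b m hm.symm hAB
      obtain ⟨u, rfl⟩ := ZMod.intCast_surjective U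
      obtain ⟨v, rfl⟩ := ZMod.intCast_surjective V
      refine ⟨⟨u, v⟩, ?_⟩
      have h1 : (⟨u, v⟩ : G) * ⟨u, v⟩ - ⟨a, b⟩ = ⟨u * u - v * v - a, 2 * u * v - b⟩ := by
        ext <;> simp <;> ring
      rw [h1, hdvd]
      push_cast
      rw [hU, hV]
      simp
  unfold qs
  split_ifs with h1 h2
  · exact ((legendreSym.eq_zero_iff _ _).mpr (h0.mp h1)).symm
  · exact ((legendreSym.eq_one_iff _ (fun h => h1 (h0.mpr h))).mpr ((key h1).mp h2)).symm
  · exact ((legendreSym.eq_neg_one_iff _).mpr (fun h => h2 ((key h1).mpr h))).symm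

end inert

/-- the two kinds of primes -/
lemma cls {c d : ℤ} (hp : Prime (⟨c, d⟩ : G)) (hc : c % 2 = 1) (hd : d % 2 = 0)
    (h4 : (c - 1 - d) % 4 = 0) : (nm ⟨c, d⟩).Prime ∨
      ∃ l : ℕ, l.Prime ∧ l % 4 = 3 ∧ (⟨c, d⟩ : G) = ((-(l : ℤ) : ℤ) : G) := by
  have hN0 : nm ⟨c, d⟩ ≠ 0 := by
    intro h
    have h1 := nm_norm (⟨c, d⟩ : G)
    rw [h] at h1
    exact hp.ne_zero (GaussianInt.norm_eq_zero.mp (by simpa using h1.symm))
  have hN1 : nm ⟨c, d⟩ ≠ 1 := fun h => hp.not_isUnit (Zsqrtd.norm_eq_one_iff.mp h)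
  have hdvd : (⟨c, d⟩ : G) ∣ ((nm ⟨c, d⟩ : ℕ) : G) := by
    refine ⟨star ⟨c, d⟩, ?_⟩
    rw [← Zsqrtd.norm_eq_mul_conj, ← nm_norm]
    push_cast; rfl
  have h5 : ((nm ⟨c, d⟩ : ℕ) : G) = ((nm ⟨c, d⟩).primeFactorsList.map (fun r : ℕ => (r : G))).prod := by
    conv_lhs => rw [← Nat.prod_primeFactorsList hN0]
    exact map_list_prod (Nat.castRingHom G) _
  rw [h5, hp.dvd_prod_iff] at hdvd
  obtain ⟨z, hz, hz2⟩ := hdvd
  obtain ⟨r, hr, rfl⟩ := List.mem_map.mp hz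
  have hrp := Nat.prime_of_mem_primeFactorsList hr
  obtain ⟨s, hs⟩ := hz2
  have h6 : r * r = nm ⟨c, d⟩ * nm s := by
    have h7 := congrArg Zsqrtd.norm hs
    rw [Zsqrtd.norm_mul, Zsqrtd.norm_natCast, ← nm_norm, ← nm_norm] at h7
    exact_mod_cast h7
  have h8 : nm ⟨c, d⟩ ∣ r ^ 2 := ⟨nm s, by rw [← h6]; ring⟩
  obtain ⟨j, hj, hj2⟩ := (Nat.dvd_prime_pow hrp).mp h8
  interval_cases j
  · exact absurd (by simpa using hj2) hN1
  · left; rw [hj2, pow_one]; exact hrp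
  · right
    have hs1 : nm s = 1 := by
      rw [hj2] at h6
      have : r ^ 2 * nm s = r ^ 2 * 1 := by rw [← h6]; ring
      exact Nat.eq_of_mul_eq_mul_left (pow_pos hrp.pos 2) this
    have hsu : IsUnit s := Zsqrtd.norm_eq_one_iff.mp hs1
    have hrG : Prime ((r : ℕ) : G) := by
      rw [hs]; exact (associated_mul_unit_right _ _ hsu).prime hp
    have : Fact r.Prime := ⟨hrp⟩
    have hr3 : r % 4 = 3 := GaussianInt.mod_four_eq_three_of_nat_prime_of_prime r hrG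
    have h9 : (((r : ℕ) : ℤ) : G) ∣ (⟨c, d⟩ : G) := by
      have h10 : (⟨c, d⟩ : G) ∣ ((r : ℕ) : G) := ⟨s, hs⟩
      have h11 : Associated (⟨c, d⟩ : G) ((r : ℕ) : G) := by
        rw [hs]; exact associated_mul_unit_right _ _ hsu
      have := h11.symm.dvd
      exact_mod_cast this
    rw [Zsqrtd.intCast_dvd] at h9
    obtain ⟨⟨x, hx⟩, ⟨y, hy⟩⟩ := h9
    simp only at hx hy
    have h12 := nm_eq c d
    rw [hj2, hx, hy] at h12
    have hr0 : (0 : ℤ) < r := by exact_mod_cast hrp.pos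
    have h13 : x * x + y * y = 1 := by
      have h14 : (r : ℤ) ^ 2 * (x * x + y * y) = (r : ℤ) ^ 2 * 1 := by
        push_cast at h12
        linear_combination -h12
      exact mul_left_cancel₀ (pow_ne_zero 2 hr0.ne') h14
    have hy0 : y % 2 = 0 := by
      by_contra h
      have hy1 : y % 2 = 1 := by omega
      have hd1 : d % 2 = 1 := by
        rw [hy, Int.mul_emod, hy1]
        omega
      omega
    have hyy : y = 0 := by
      have h1 : y ≤ 1 := by nlinarith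
      have h2 : -1 ≤ y := by nlinarith
      omega
    subst hyy
    have hxx : x = 1 ∨ x = -1 := by
      have h1 : x ≤ 1 := by nlinarith
      have h2 : -1 ≤ x := by nlinarith
      have h3 : x ≠ 0 := by rintro rfl; norm_num at h13
      omega
    refine ⟨r, hrp, hr3, ?_⟩
    rcases hxx with rfl | rfl
    · exfalso
      omega
    · rw [hx, hy]
      ext <;> simp

lemma chi_one {M : ℕ} (hM : M % 4 = 1) (x : ℤ) : J(-x | M) = J(x | M) := by
  have hMo : Odd M := by rw [Nat.odd_iff]; omega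
  rw [jacobiSym.neg _ hMo, ZMod.χ₄_nat_one_mod_four hM, one_mul]

/-- inert against split -/
lemma inert_split {l : ℕ} (hl : l.Prime) (h3 : l % 4 = 3) {a b : ℤ} (hQ : (nm ⟨a, b⟩).Prime)
    (ha : a % 2 = 1) (hb : b % 2 = 0) :
    qs ((-(l : ℤ) : ℤ) : G) ⟨a, b⟩ = qs ⟨a, b⟩ ((-(l : ℤ) : ℤ) : G) := by
  have hQ4 := nm_mod ha hb
  rw [qs_inert hl h3, qs_int hQ (not_dvd_im hQ), ← nm_eq, chi_one hQ4]
  exact jacobiSym.quadratic_reciprocity_one_mod_four hQ4 (Nat.odd_iff.mpr (by omega))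

lemma int_as (x : ℤ) : (x : G) = ⟨x, 0⟩ := by ext <;> simp

/-- inert against inert -/
lemma inert_inert {l k : ℕ} (hl : l.Prime) (hl3 : l % 4 = 3) (hk : k.Prime) (hlk : l ≠ k) :
    qs ((-(l : ℤ) : ℤ) : G) ((-(k : ℤ) : ℤ) : G) = 1 := by
  rw [int_as (-(k : ℤ)), qs_inert hl hl3]
  have h : (-(k : ℤ)) * -(k : ℤ) + 0 * 0 = (k : ℤ) ^ 2 := by ring
  rw [h]
  apply jacobiSym.sq_one'
  have := (Nat.coprime_primes hk hl).mpr (Ne.symm hlk)
  exact_mod_cast this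

/-- split against split -/
lemma split_split {a b c d : ℤ} (hp : Prime (⟨c, d⟩ : G)) (hq : Prime (⟨a, b⟩ : G))
    (hP : (nm ⟨c, d⟩).Prime) (hQ : (nm ⟨a, b⟩).Prime)
    (ha : a % 2 = 1) (hb : b % 2 = 0) (hc : c % 2 = 1) (hd : d % 2 = 0)
    (hpq : ¬ (⟨c, d⟩ : G) ∣ ⟨a, b⟩) (hqp : ¬ (⟨a, b⟩ : G) ∣ ⟨c, d⟩) :
    qs ⟨c, d⟩ ⟨a, b⟩ = qs ⟨a, b⟩ ⟨c, d⟩ := by
  have hP4 := nm_mod hc hd
  have hQ4 := nm_mod ha hb
  rw [qs_split hP hc hd, qs_split hQ ha hb]
  have hcomm : c * a + d * b = a * c + b * d := by ring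
  rw [hcomm]
  have hodd : (a * c + b * d) % 2 = 1 := by
    rw [Int.add_emod, Int.mul_emod, ha, hc, Int.mul_emod b d, hb, hd]; rfl
  have hcop : IsCoprime (a * d - b * c) (a * c + b * d) := by
    refine isCoprime_of_prime_dvd ?_ ?_
    · rintro ⟨-, h⟩
      rw [h] at hodd
      norm_num at hodd
    · rintro z hz hz1 hz2
      have h1 : z ∣ ((nm ⟨c, d⟩ : ℕ) : ℤ) * ((nm ⟨a, b⟩ : ℕ) : ℤ) := by
        have h2 : ((nm ⟨c, d⟩ : ℕ) : ℤ) * ((nm ⟨a, b⟩ : ℕ) : ℤ) =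
            (a * d - b * c) * (a * d - b * c) + (a * c + b * d) * (a * c + b * d) := by
          rw [nm_eq, nm_eq]; ring
        rw [h2]
        exact dvd_add (hz1.mul_right _) (hz2.mul_right _)
      have h5 : ((z : ℤ) : G) ∣ (⟨a, b⟩ : G) * star (⟨c, d⟩ : G) := by
        have h6 : (⟨a, b⟩ : G) * star (⟨c, d⟩ : G) = ⟨a * c + b * d, b * c - a * d⟩ := by
          ext <;> simp <;> ring
        rw [h6, Zsqrtd.intCast_dvd]
        refine ⟨hz2, ?_⟩
        have h7 := (dvd_neg (a := z)).mpr hz1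
        rwa [neg_sub] at h7
      have h5' : ((z : ℤ) : G) ∣ (⟨c, d⟩ : G) * star (⟨a, b⟩ : G) := by
        have h6 : (⟨c, d⟩ : G) * star (⟨a, b⟩ : G) = ⟨a * c + b * d, a * d - b * c⟩ := by
          ext <;> simp <;> ring
        rw [h6, Zsqrtd.intCast_dvd]
        exact ⟨hz2, hz1⟩
      have gen : ∀ x y : G, x ≠ 0 → z ∣ ((nm x : ℕ) : ℤ) → (nm x).Prime →
          ((z : ℤ) : G) ∣ y * star x → x ∣ y := by
        intro x y hx hzx hxp hzy
        have h7 : Associated z ((nm x : ℕ) : ℤ) :=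
          hz.associated_of_dvd (Nat.prime_iff_prime_int.mp hxp) hzx
        have h8 : ((((nm x : ℕ) : ℤ)) : G) ∣ y * star x := by
          have h9 : ((((nm x : ℕ) : ℤ)) : G) ∣ ((z : ℤ) : G) := by
            obtain ⟨w, hw⟩ := h7.symm.dvd
            exact ⟨(w : G), by rw [hw]; push_cast; ring⟩
          exact h9.trans hzy
        rw [nm_norm, Zsqrtd.norm_eq_mul_conj] at h8
        exact (mul_dvd_mul_iff_right (star_ne_zero.mpr hx)).mp h8
      rcases hz.dvd_or_dvd h1 with h | h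
      · exact hpq (gen _ _ hp.ne_zero h hP h5)
      · exact hqp (gen _ _ hq.ne_zero h hQ h5')
  have hPQ : (nm ⟨c, d⟩ * nm ⟨a, b⟩) % 4 = 1 := by
    rw [Nat.mul_mod, hP4, hQ4]
  have h1 : J(a * c + b * d | nm ⟨c, d⟩ * nm ⟨a, b⟩) = 1 := by
    apply jac_one (y := a * d - b * c) hPQ hodd _ hcop
    push_cast
    rw [nm_eq, nm_eq]
    exact ⟨a * c + b * d, by ring⟩
  rw [jacobiSym.mul_right' _ hP.ne_zero hQ.ne_zero] at h1
  rcases jacobiSym.trichotomy (a * c + b * d) (nm ⟨c, d⟩) with h | h | h <;>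
    rcases jacobiSym.trichotomy (a * c + b * d) (nm ⟨a, b⟩) with h' | h' | h' <;>
    rw [h, h'] at h1 ⊢ <;> norm_num at h1

/-- quadratic reciprocity -/
theorem t_REC : SREC := by
  rintro ⟨c, d⟩ ⟨a, b⟩ hp hpp hq hqq
  obtain ⟨hc, hd, h4⟩ := prm_cong hpp
  obtain ⟨ha, hb, h4'⟩ := prm_cong hqq
  have hsymm : (⟨c, d⟩ : G) ∣ ⟨a, b⟩ ↔ (⟨a, b⟩ : G) ∣ ⟨c, d⟩ := by
    rw [hp.dvd_prime_iff_associated hq, hq.dvd_prime_iff_associated hp, Associated.comm]
  by_cases hpq : (⟨c, d⟩ : G) ∣ ⟨a, b⟩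
  · have hqp := hsymm.mp hpq
    unfold qs
    rw [if_pos hpq, if_pos hqp]
  · have hqp : ¬ (⟨a, b⟩ : G) ∣ ⟨c, d⟩ := fun h => hpq (hsymm.mpr h)
    rcases cls hp hc hd h4 with hP | ⟨l, hl, hl3, hleq⟩
    · rcases cls hq ha hb h4' with hQ | ⟨k, hk, hk3, hkeq⟩
      · exact split_split hp hq hP hQ ha hb hc hd hpq hqp
      · rw [hkeq]
        exact (inert_split hk hk3 hP hc hd).symm
    · rcases cls hq ha hb h4' with hQ | ⟨k, hk, hk3, hkeq⟩
      · rw [hleq]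
        exact inert_split hl hl3 hQ ha hb
      · rw [hleq, hkeq] at hpq ⊢
        have hlk : l ≠ k := by
          rintro rfl
          exact hpq dvd_rfl
        rw [inert_inert hl hl3 hk hlk, inert_inert hk hk3 hl hlk.symm]

end Pool.Agent.Y901.PP.Rec
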